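import Pool.Agent.Helper68.FZ.Law

/-!
# Zero-cycles on ALL cubic twists over `ℚ(ω)`: the `3`-part of the Brauer-Manin complex

`K = ℚ(ω)`, `D` runs through ALL cube-free elements of `𝓞 K`, ordered by the norm, and
`E_D : y² + D y = x³`: these are all the cubic twists of the Fermat curve `x³ + y³ = 1` over `K`, and all
the elliptic curves over `K` with `j`-invariant `0` and a `K`-rational point of order three, each one
twice (`D` and `-D`).

The question Q1 for `F = K` and for `X = E_D`, or any smooth projective curve `X` of genus one with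
Jacobian `E_D` (for instance `a x³ + b y³ + c z³ = 0` with `a b c = D`): the complex is the product of its
`ℓ`-primary parts, and by the duality theorem of Cassels and Tate (Colliot-Thélène for `X`) the homology of
the `ℓ`-primary part is the Tate module `T_ℓ Ш(E_D / K)`, a free `ℤ_ℓ`-module. We treat `ℓ = 3`.

* For every cube-free `D ≠ ± 1` the Selmer group of the endomorphism `√-3` of `E_D` has order
  `3 ^ (r + 1)` for some `r`, and then `3 ^ (rank E_D(K)) · #Ш(E_D / K)[3] ≤ 9 ^ r`; the same holds for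
  the homology `H` of the `3`-part in place of `Ш(E_D / K)[3]`: `3 ^ (rank E_D(K)) · #(H / 3 H) ≤ 9 ^ r`,
  that is, `rank E_D(K) + rank H ≤ 2 r`.
* `H = 0` (the `3`-part of the complex is exact) and `Ш(E_D / K)[3] = 0`, if `r = 0`, or if `r = 1` and
  `E_D(K)` is infinite.
* For every `r` this bound, `rank E_D(K) + rank H ≤ 2 r`, holds for a proportion of at least
  `prob 0 + ⋯ + prob r` of all `D`, which tends to `1` as `r → ∞`, where
  `prob r = ∏_{i ≥ 0} (1 - 3^{-(2 i + 1)}) / ((3 - 1) (9 - 1) ⋯ (3 ^ r - 1))`.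
* In particular the `3`-part of the complex is exact for at least `63.9 %` of all `D`; and for at least
  `95.8 %` of all `D` it is exact if `E_D(K)` is infinite.

There are no hypotheses. Earlier results for this question treat `ℓ = 2` (2-extensions of number fields,
`TwoExtensionsEveryField` here, `TwoExtensionsAllSignatures` in the library) or are conditional.

Proof. The law of the Selmer groups is that of `ExactProportion` (MP_9ab903_nt; seats helper52, helper68,
helper48, helper55 and the seats named there). New here (`FZ/*.lean`): the Selmer characters modulo the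
characters of the points map onto the classes of `Ш` killed by `√-3`, and both filtration steps of
`Ш[3]` embed there; the characters of the points bound the rank; and `H / 3 H` embeds into `Ш[3]`.
-/

set_option autoImplicit false

namespace Pool.Agent.Results.MP_f80667_ag.CubicTwistsAtThree

open NumberField WeierstrassCurve
open Pool.Agent.TH841.SH.D (Coch)
open Pool.Agent.TH841.NF.D (IsShaCoc Sha)
open Pool.Agent.Helper68.FZ (Tate tate_card tate_bot no_pow bounds share_r)
open scoped Classical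

variable {K : Type} [Field K] [NumberField K]

/-- The curve `E_D : y² + D y = x³`. -/
def curve (D : K) : WeierstrassCurve K := ⟨0, 0, D, 0, 0⟩

/-- The Selmer group of the endomorphism `√-3` of `E_D` over `K`: the continuous cocycles with
values in its kernel `{0, (0, 0), (0, -D)}` that are coboundaries in `E_D` at all the places. (The
Galois group acts trivially on the kernel: different cocycles have different classes.) -/
def Selmer (D : K) : Set (Coch (curve D)) :=
  {f | IsShaCoc (curve D) f ∧ ∀ σ, f σ = 0 ∨ ∃ y h, f σ = Affine.Point.some 0 y h}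

/-- The rank of `E_D(K)` over `ℤ`. -/
noncomputable def rank (D : K) : ℕ := Module.finrank ℤ (curve D).toAffine.Point

/-- The elements of `Ш(E_D / K)` killed by `3`. -/
abbrev ShaThree (D : K) : Type := {x : Sha (curve D) // (3 : ℕ) • x = 0}

/-- The Tate module `T_3 Ш(E_D / K)`, the sequences `x` in `Ш(E_D / K)` with `x 0 = 0` and
`3 x (n + 1) = x n`: the homology of the `3`-primary part of the complex for `E_D`. -/
noncomputable abbrev Homology (D : K) : AddSubgroup (ℕ → Sha (curve D)) := Tate (Sha (curve D))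

/-- The homology modulo three. Its order is `3 ^ g`, where `g` is the rank of the free `ℤ_3`-module
`Homology D`. -/
abbrev HomologyModThree (D : K) : Type :=
  Homology D ⧸ (nsmulAddMonoidHom 3 : Homology D →+ Homology D).range

/-- `3 ^ (rank E_D(K)) · #Ш[3] ≤ 9 ^ r` and `3 ^ (rank E_D(K)) · #(H / 3 H) ≤ 9 ^ r`. -/
def Bound (r : ℕ) (D : K) : Prop :=
  (Finite (ShaThree D) ∧ 3 ^ rank D * Nat.card (ShaThree D) ≤ 9 ^ r) ∧
    Finite (HomologyModThree D) ∧ 3 ^ rank D * Nat.card (HomologyModThree D) ≤ 9 ^ r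

/-- The homology of the `3`-part is zero, and `Ш(E_D / K)` has no nonzero element killed by a power
of three. -/
def ExactAtThree (D : K) : Prop :=
  Homology D = ⊥ ∧ ∀ (n : ℕ) (x : Sha (curve D)), (3 ^ n : ℕ) • x = 0 → x = 0

/-- `D` is cube-free (so not zero). -/
def CubeFree (D : 𝓞 K) : Prop := ∀ x : 𝓞 K, x ^ 3 ∣ D → IsUnit x

/-- The proportion, among the cube-free `D` of norm at most `X`, of those with the property `P`. -/
noncomputable def share (P : 𝓞 K → Prop) (X : ℕ) : ℝ :=
  ({D : 𝓞 K | Algebra.norm ℤ D ≤ X ∧ CubeFree D ∧ P D}.ncard : ℝ) /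
    ({D : 𝓞 K | Algebra.norm ℤ D ≤ X ∧ CubeFree D}.ncard : ℝ)

/-- `∏_{i ≥ 0} (1 - 3^{-(2 i + 1)}) / ((3 - 1) (9 - 1) ⋯ (3 ^ r - 1))`. -/
noncomputable def prob (r : ℕ) : ℝ :=
  (∏' i : ℕ, (1 - (1 / 3 : ℝ) ^ (2 * i + 1))) / ∏ i ∈ Finset.range r, ((3 : ℝ) ^ (i + 1) - 1)

/-- one curve -/
theorem one (K : Type) [Field K] [NumberField K] [IsCyclotomicExtension {3} ℚ K] (D : 𝓞 K)
    (h0 : CubeFree D) (h1 : D ≠ 1) (h2 : D ≠ -1) (r : ℕ)
    (hr : (Selmer (D : K)).ncard ≤ 3 ^ (r + 1)) :
    Bound r (D : K) ∧ (r = 0 ∨ (r = 1 ∧ rank (D : K) ≠ 0) → ExactAtThree (D : K)) := by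
  obtain ⟨h3, h4, h5⟩ := bounds K D h0 h1 h2 r hr
  have h6 := tate_card (A := Sha (curve (D : K))) (m := Nat.card (ShaThree (D : K))) h3 le_rfl
  refine ⟨⟨⟨h3, h4⟩, h6.1, (Nat.mul_le_mul_left _ h6.2).trans h4⟩, fun h => ?_⟩
  exact ⟨tate_bot h3 (h5 h), no_pow h3 (h5 h)⟩

theorem result (K : Type) [Field K] [NumberField K] [IsCyclotomicExtension {3} ℚ K] :
    (∀ D : 𝓞 K, CubeFree D → D ≠ 1 → D ≠ -1 → ∃ r : ℕ, (Selmer (D : K)).ncard = 3 ^ (r + 1) ∧
      Bound r (D : K) ∧ (r = 0 ∨ (r = 1 ∧ rank (D : K) ≠ 0) → ExactAtThree (D : K))) ∧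
    (∀ (r : ℕ) (c : ℝ), c < ∑ i ∈ Finset.range (r + 1), prob i →
      ∀ᶠ X : ℕ in Filter.atTop, c < share (fun D : 𝓞 K => Bound r (D : K)) X) ∧
    (∀ᶠ X : ℕ in Filter.atTop,
      0.639 < share (fun D : 𝓞 K => rank (D : K) = 0 ∧ ExactAtThree (D : K)) X) ∧
    (∀ᶠ X : ℕ in Filter.atTop,
      0.958 < share (fun D : 𝓞 K => rank (D : K) ≠ 0 → ExactAtThree (D : K)) X) ∧
    HasSum prob 1 := by
  have hp0 : prob 0 = ∏' i : ℕ, (1 - (1 / 3 : ℝ) ^ (2 * i + 1)) := by
    unfold prob
    rw [Finset.prod_range_zero, div_one]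
  obtain ⟨-, h2, -⟩ := Pool.Agent.Helper68.C8.AllCf.s_ALLCF K
  rw [← hp0] at h2
  have hp1 : prob 1 = prob 0 / 2 := by
    unfold prob
    rw [Finset.prod_range_one, Finset.prod_range_zero, div_one]
    norm_num
  have hmon : ∀ {r : ℕ} {D : 𝓞 K}, (∃ i < r + 1, (Selmer (D : K)).ncard = 3 ^ (i + 1)) →
      (Selmer (D : K)).ncard ≤ 3 ^ (r + 1) := by
    rintro r D ⟨i, hi, h⟩
    rw [h]
    exact Nat.pow_le_pow_right (by norm_num) (by omega)
  refine ⟨fun D h0 h1 h2 => ?_, fun r c hc => ?_, ?_, ?_, Pool.Agent.Y703.XL.t_SUM'⟩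
  · obtain ⟨⟨r, hr, -⟩, -⟩ := Pool.Agent.Helper68.C10.LR.one_K K D h0 h1 h2
    have hr' : (Selmer (D : K)).ncard = 3 ^ (r + 1) := hr
    exact ⟨r, hr', one K D h0 h1 h2 r hr'.le⟩
  · exact share_r K r (fun D : 𝓞 K => Bound r (D : K))
      (fun D h0 h1 h2 h => (one K D h0 h1 h2 r (hmon h)).1) hc
  · refine share_r K 0 (fun D : 𝓞 K => rank (D : K) = 0 ∧ ExactAtThree (D : K))
      (fun D h0 h1 h2 h => ?_) (c := 0.639) ?_
    · obtain ⟨h3, h4⟩ := one K D h0 h1 h2 0 (hmon h)
      refine ⟨?_, h4 (Or.inl rfl)⟩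
      by_contra hrk
      have h5 := h3.1.2
      have h6 : 3 ^ 1 ≤ 3 ^ rank (D : K) :=
        Nat.pow_le_pow_right (by norm_num) (Nat.one_le_iff_ne_zero.2 hrk)
      have h7 : 1 ≤ Nat.card (ShaThree (D : K)) := by
        have hf := h3.1.1
        have hn : Nonempty (ShaThree (D : K)) := ⟨⟨0, smul_zero _⟩⟩
        exact Nat.card_pos
      have h8 := Nat.mul_le_mul h6 h7
      rw [pow_zero] at h5
      omega
    · rw [zero_add, Finset.sum_range_one]
      exact h2
  · refine share_r K 1 (fun D : 𝓞 K => rank (D : K) ≠ 0 → ExactAtThree (D : K))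
      (fun D h0 h1 h2 h hrk => ?_) (c := 0.958) ?_
    · exact (one K D h0 h1 h2 1 (hmon h)).2 (Or.inr ⟨rfl, hrk⟩)
    · have h9 : 0.958 < prob 0 + prob 1 := by
        rw [hp1]
        linarith
      show 0.958 < ∑ i ∈ Finset.range 2, prob i
      rw [Finset.sum_range_succ, Finset.sum_range_one]
      exact h9

end Pool.Agent.Results.MP_f80667_ag.CubicTwistsAtThree
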