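import Pool.Agent.Helper10.PC.Eff
import Pool.Graph.R_pool_sql_team_seeded_2aa45f1a.Results.MP_f80667_ag.BilinearSystems

/-!
# The Brauer-Manin complex for zero-cycles of degree zero and planar configurations of the same dimension

Let `C` be the category of effective Chow motives over `ℚ`, with integral coefficients, let `M(X)` be the
(covariant) motive of the smooth projective scheme `X` over `ℚ`, and let `W(Y)` be the weight complex of the
separated scheme `Y` of finite type over `ℚ` (for the homology with locally finite supports, Gillet and
Soulé). Let `E(M)` be the homology of the complex

`lim F¹(X)/n → lim F¹_A(X)/n → Hom(Br(X)/Br_0(X), ℚ/ℤ)`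

for the motive `M = M(X)`, and for a complex `W` of motives let `E(W)` be the complex of groups obtained by
applying the functor `E` to the terms. `ExactOn` says that `E(M) = 0`, and `ExactK` says that the complex
`E(W)` is acyclic.

A matroid `M` of rank three on the set `Fin 4 ⊕ Fin n` is **framed** if any three of the four elements of
`Fin 4` form a base; it is **simple** if any two elements are independent. Let `modS ℚ M` be the moduli
space of the configurations of `n + 4` different points in the projective plane in which exactly the triples
prescribed by `M` are collinear, modulo projective transformations: the four points of `Fin 4` are the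
points of `e_1, e_2, e_3, e_1 + e_2 + e_3`, and the other ones have normalised coordinates.

**Theorem.** (1) For each smooth projective scheme `X` over `ℚ` there is a finite list `L` of simple
matroids of rank three, whose moduli spaces are integral, smooth, and of dimension at most `dim X`, such
that the Brauer-Manin complex is exact for `X` if the complexes `E(W(Y))` are acyclic for the finitely many
moduli spaces `Y = modS ℚ M`, `M` in `L`.

(2) For each `d` the following are equivalent: the Brauer-Manin complex is exact for all smooth projective
schemes over `ℚ` of dimension at most `d`; the complexes `E(W(Y))` are acyclic for all moduli spaces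
`Y = modS ℚ M` that are integral, smooth and of dimension at most `d`, for all simple framed matroids `M` of
rank three. (For `d = 1` the first statement is known if the Tate-Shafarevich groups of Jacobians have no
divisible elements; the first open dimension for which there is no such criterion is `d = 2`.)

(3) The same without bounds for the dimensions.

The schemes `X` need not be connected, so that all smooth projective varieties over all number fields are
covered (consider them as schemes over `ℚ`), in their version with the scheme of the constants
(`ZeroCycles`). The standard facts on the weight complexes which are used (`IsCutCov`) are isomorphism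
invariance, `W(∅) = 0`, the triangle of a closed-open pair, and that `W(Y)` is given by a complex of direct
summands of motives of smooth projective schemes of dimension at most `dim Y`. The earlier reductions (to
systems of bilinear equations, and to matrices with square zero) lead to singular schemes of larger
dimension and need products with `𝔾_m`; they do not preserve the dimension.
-/

set_option autoImplicit false

open CategoryTheory Limits AlgebraicGeometry Pool.Agent.Y116.UV Pool.Agent.Q282.UM
  Pool.Agent.Q282.UK Pool.Agent.Q193.LT Pool.Agent.Z125.UN Pool.Agent.Helper3.GU
  Pool.Agent.Helper13.RM Pool.Agent.Helper10.PC Pool.Agent.Results.MP_f80667_ag.BilinearSystems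

namespace Pool.Agent.Results.MP_f80667_ag.PlanarConfigurations

universe v u w

/-- **The Brauer-Manin complex for zero-cycles of degree zero and planar configurations.** See the
explanations above. -/
theorem result :
    (∀ X : Sch ℚ, IsSmoothProjective X →
      ∃ L : List Mat, (∀ M ∈ L, SmoothMod ℚ (topologicalKrullDim X.left) M.2) ∧
        ∀ {C : Type u} [Category.{v} C] [Preadditive C] [HasZeroObject C]
          [HasBinaryBiproducts C] [HasFiniteBiproducts C] {Ω : Type}
          (Z : ZeroCycles.{v, u, w} C Ω) (pair : compl (adelic Z) ⟶ Z.dual)
          (hZ : IsZeroCycles Z pair) (D : Complexes ℚ C), IsCutCov D →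
          (∀ M ∈ L, ExactK (complex hZ) (adelic_additive hZ) (D.W (modS ℚ M.2))) →
            ExactOn (complex hZ) (D.M X)) ∧
    ∀ {C : Type u} [Category.{v} C] [Preadditive C] [HasZeroObject C]
      [HasBinaryBiproducts C] [HasFiniteBiproducts C] {Ω : Type} (Z : ZeroCycles.{v, u, w} C Ω)
      (pair : compl (adelic Z) ⟶ Z.dual) (hZ : IsZeroCycles Z pair) (D : Complexes ℚ C),
      IsCutCov D →
        (∀ d : ℕ, (∀ X : Sch ℚ, IsSmoothProjective X → DimAt X d →
            ExactOn (complex hZ) (D.M X)) ↔
          ∀ (m : ℕ) (M : Matroid (Fin 4 ⊕ Fin m)), SmoothMod ℚ d M →
            ExactK (complex hZ) (adelic_additive hZ) (D.W (modS ℚ M))) ∧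
        ((∀ X : Sch ℚ, IsSmoothProjective X → ExactOn (complex hZ) (D.M X)) ↔
          ∀ (d m : ℕ) (M : Matroid (Fin 4 ⊕ Fin m)), SmoothMod ℚ d M →
            ExactK (complex hZ) (adelic_additive hZ) (D.W (modS ℚ M))) := by
  constructor
  · intro X hX
    obtain ⟨L, hL, h⟩ := list_cov (k := ℚ) frac_rat hX
    refine ⟨L, hL, ?_⟩
    intro C _ _ _ _ _ Ω Z pair hZ D hD h1
    exact h hD (ext_exact (complex hZ) (adelic_additive hZ)) h1
  · intro C _ _ _ _ _ Ω Z pair hZ D hD
    have hP := ext_exact (complex hZ) (adelic_additive hZ)
    exact ⟨fun d => dim_cov frac_rat hD hP d, all_cov frac_rat hD hP⟩

end Pool.Agent.Results.MP_f80667_ag.PlanarConfigurations
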