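import Pool.Agent.Helper53.SZ.Lst
import Pool.Graph.R_pool_sql_team_seeded_2aa45f1a.Results.MP_f80667_ag.BilinearSystems

/-!
# MP_f80667_ag: the Brauer-Manin complex for zero-cycles of degree zero and matrices with square zero
-/

set_option autoImplicit false

open CategoryTheory Limits AlgebraicGeometry Pool.Agent.Y116.UV Pool.Agent.Q282.UM
  Pool.Agent.Q282.UK Pool.Agent.Helper53.SZ Pool.Agent.Results.MP_f80667_ag.BilinearSystems

namespace Pool.Agent.Results.MP_f80667_ag.SquareZeroMatrices

universe v u w

/-- **The Brauer-Manin complex for zero-cycles of degree zero and matrices with square zero.** Let `C` be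
the category of effective Chow motives over `ℚ`, with integral coefficients, let `M(X)` be the motive of
the smooth projective scheme `X` over `ℚ`, and let `W(Y)` be the weight complex of the scheme `Y` of
finite type over `ℚ`. Let `E(M)` be the homology of the complex
`lim F¹(X)/n → lim F¹_A(X)/n → Hom(Br(X)/Br_0(X), ℚ/ℤ)` for the motive `M = M(X)`.

* The following are equivalent: the complex is exact for all smooth projective `X` over `ℚ`; the complex
  `E(W(Y))` is acyclic for the schemes `Y` of the pairs of matrices `A`, `B` with `A B = 0` and with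
  prescribed zeros; `E(W(Y))` is acyclic for the schemes `Y` of the strictly upper triangular matrices
  `N` with `N² = 0` and with prescribed zeros.
* For each smooth projective `X` over `ℚ` there is a finite list of sets of positions above the diagonal,
  which depends only on `X`, such that the complex is exact for `X` if `E(W(Y))` is acyclic for the
  schemes `Y` of the matrices `N` with `N² = 0` and zeros outside of these positions. -/
theorem result :
    (∀ {C : Type u} [Category.{v} C] [Preadditive C] [HasZeroObject C]
      [HasBinaryBiproducts C] [HasFiniteBiproducts C] {Ω : Type} (Z : ZeroCycles.{v, u, w} C Ω)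
      (pair : compl (adelic Z) ⟶ Z.dual) (hZ : IsZeroCycles Z pair) (D : Complexes ℚ C),
      IsCovariant D →
        [∀ X : Sch ℚ, IsSmoothProjective X → ExactOn (complex hZ) (D.M X),
          ∀ (a b c : ℕ) (S : Fin a → Fin b → Prop) (T : Fin b → Fin c → Prop),
            ExactK (complex hZ) (adelic_additive hZ) (D.W (productZero ℚ S T)),
          ∀ (n : ℕ) (G : Fin n → Fin n → Prop), (∀ i j, G i j → i < j) →
            ExactK (complex hZ) (adelic_additive hZ) (D.W (squareZero ℚ G))].TFAE) ∧
    ∀ X : Sch ℚ, IsSmoothProjective X →
      ∃ L : List (Σ n : ℕ, Fin n → Fin n → Prop), (∀ G ∈ L, ∀ i j, G.2 i j → i < j) ∧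
        ∀ {C : Type u} [Category.{v} C] [Preadditive C] [HasZeroObject C]
          [HasBinaryBiproducts C] [HasFiniteBiproducts C] {Ω : Type}
          (Z : ZeroCycles.{v, u, w} C Ω) (pair : compl (adelic Z) ⟶ Z.dual)
          (hZ : IsZeroCycles Z pair) (D : Complexes ℚ C), IsCovariant D →
          (∀ G ∈ L, ExactK (complex hZ) (adelic_additive hZ) (D.W (squareZero ℚ G.2))) →
            ExactOn (complex hZ) (D.M X) := by
  constructor
  · intro C _ _ _ _ _ Ω Z pair hZ D hD
    have hP := ext_exact (complex hZ) (adelic_additive hZ)
    have h := square_tfae (clo_cov hD hP) presents_rat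
    have h12 := h.out 1 2
    have h20 := h.out 2 0
    tfae_have 1 → 2 := fun h1 a b c S T => of_pieces hP h1 (hD.pieces _ (ft_product S T))
    tfae_have 2 → 3 := fun h1 => h12.1 h1
    tfae_have 3 → 1 := fun h1 X hX =>
      hP.to_object _ (hP.iso (hD.projective X hX) (h20.1 h1 X (ft_projective hX)))
    tfae_finish
  · intro X hX
    obtain ⟨L, hL, h⟩ := finite_list (sep := True) presents_rat X (ft_projective hX)
    refine ⟨L, hL, ?_⟩
    intro C _ _ _ _ _ Ω Z pair hZ D hD h1
    have hP := ext_exact (complex hZ) (adelic_additive hZ)
    exact hP.to_object _ (hP.iso (hD.projective X hX) (h _ (clo_cov hD hP) h1))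

end Pool.Agent.Results.MP_f80667_ag.SquareZeroMatrices
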