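import Pool.Agent.Helper82.TU.Cnt
import Pool.Graph.R_pool_sql_team_seeded_63374d34.N874.TF.Fin

/-!
# Zero-cycles on hyperelliptic curves of every genus over every number field: exactness at the prime 2 over
# Galois 2-extensions of any signature

Let `F` be ANY number field and `g ≥ 1`. We consider ALL polynomials
`f = x ^ (2 g + 1) + a_(2 g - 1) x ^ (2 g - 1) + ... + a_0` with coefficients in the ring of integers of `F`,
ordered by the height: `|σ a_i| ≤ B ^ (2 g + 1 - i)` for all embeddings `σ : F → ℂ`. (Every hyperelliptic
curve of genus `g` over `F` with a rational Weierstrass point has an equation `y ^ 2 = f(x)` with such an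
`f`.)

For `f` and a finite set `Q` of primes of `F` let `C(f, Q)` be the class of all the finite Galois extensions
`M / F` of 2-power degree in which all the primes over `2` and all `v ∈ Q` split completely and in which
only primes are ramified modulo which `f` is irreducible. There is NO condition at the infinite places:
a real place of `F` may split completely in `M` or become complex.

Theorem. For every number field `F`, every `g ≥ 1`, every finite set `T` of primes of `F` and every finite
extension `N / F` there are a finite set `Q` of primes of `F`, disjoint from `T`, prime to `2` and split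
completely in `N`, and a constant `c > 0` such that for all large `B` at least `c` times the number of all the
`f` of height at most `B` are irreducible over `F`, modulo all the primes over `2` and modulo all `v ∈ T`,
and satisfy: for ALL `M ∈ C(f, Q)` multiplication by two is bijective on `J(M)`, `J` the Jacobian of
`y ^ 2 = f(x)`, and all the classes of 2-power order in the Tate-Shafarevich group of `J` over `M` are zero.

Here `J(M)` is the Picard group of the affine coordinate ring `M[x, y] / (y ^ 2 - f)` (the curve has one
point at infinity, which is rational), and the Tate-Shafarevich group is defined by continuous cocycles on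
the absolute Galois group of `M` with values in `J` of the separable closure which are trivial over the
completions at all finite places and over `ℝ` for all real embeddings. By the theorem of Mordell and Weil
`J(M)` is finite of odd order.

The question Q1 for the curve `X : y ^ 2 = f(x)` over `M`. The complex is the product of its `ℓ`-primary
parts (the limits over the powers `n` of `ℓ`). `F¹(X_M) = J(M)`, the Brauer group of `X_M` modulo that of `M`
is `H¹(M, J)`, and by the duality theorem of Cassels and Tate (Saito, Colliot-Thélène for curves of any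
genus) the homology of the `ℓ`-primary part of the complex is the Tate module `T_ℓ Sha(J / M)`. So over EVERY
number field `F`, for a positive proportion of ALL the hyperelliptic curves `X` of genus `g` with a rational
Weierstrass point and for ALL the fields `M ∈ C(f, Q)` the 2-primary part of the complex for `X` over `M` is
exact, unconditionally. As `J(M)` is finite of odd order, both sides are zero: no element of
`∏ lim J(M_v) / 2 ^ m` (modulo norms at the real places) except zero is orthogonal to `Br(X_M)`.

The class `C(f, Q)` is closed under composita and infinite: `f` is irreducible modulo the primes over `2`, so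
its Galois group contains a cycle of length `2 g + 1`, and by the theorem of Chebotarev there are infinitely
many primes modulo which it is irreducible; it contains many quadratic extensions, also those of its
members, and many non-abelian extensions of unbounded degree. With `T` the set of the primes which are
ramified in `N` the theorem says: EVERY Galois extension `N / F` of 2-power degree in which the primes over `2`
split completely belongs to `C(f, Q)`, for a set of `f` of positive density which is good for all the
other `M ∈ C(f, Q)` at the same time.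

What is new. Over one field `F`: `MP_1d384c_nt.JacobiansNumberFields`. For `g = 1` and for `M` in which the
infinite places split completely: `MP_bd895b_nt.EveryNumberFieldAtTwo`. For `F = ℚ` and totally real `M`, all
genera: `MP_ac3185_nt.RankZeroUniformly`. For `F = ℚ`, `g = 1`, all signatures:
`MP_f80667_ag.TwoExtensionsAllSignatures`. Here `F`, `g` and the signature of `M` are arbitrary, and the given
field `N` can be put in the class.

Proof. We work in the family of the `f` whose derivative is positive on the real line at all the real
places of `F`; it has positive density, because a positive proportion of the points of the box can be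
shifted by a large rational integer in the coefficient of `x`, and the sieve for the squares which divide
the discriminant is made sharp enough for this part of the box. An element of `F(θ)`, `f(θ) = 0`, whose norm
is a square is then positive at the only real place of `F(θ)` over each real place of `F`, so
that there is no real condition for the classes over `F`, and one does not need real places of `M`. The
group of the classes over `M` which satisfy the local conditions is stable under `Gal(M / F)`, and it is
zero because its invariant part comes from a relaxed Selmer group over `F`, which is zero for a twist of `f`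
by a product of primes below `Q` (projects PF and TF). The primes below `Q` are chosen such that the
equation of a generator of `N` splits modulo them.

Project TU (helper82), based on the projects PF (helper783), TF, TC, QM, JM (helper874) and JB (helper352) of
the library, with parts by many helpers named there.
-/

set_option autoImplicit false
set_option linter.all false

namespace Pool.Agent.Results.MP_f80667_ag.TwoExtensionsEveryField

open Polynomial Filter IsDedekindDomain NumberField
open Pool.Agent.N874.Jac (UniquelyTwoDivisible ShaTwoTrivialReal)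
open scoped Classical

section defs

variable {F : Type} [Field F] [NumberField F]

/-- `f` is a monic polynomial of degree `2 g + 1` with integral coefficients, without term of degree
`2 g`, and of height at most `B`: all conjugates of the coefficient of degree `j` are at most
`B ^ (2 g + 1 - j)` in absolute value. -/
structure IsPoly (g B : ℕ) (f : (𝓞 F)[X]) : Prop where
  monic : f.Monic
  degree : f.natDegree = 2 * g + 1
  trace : f.coeff (2 * g) = 0
  height : ∀ j ≤ 2 * g, ∀ σ : F →+* ℂ, ‖σ (f.coeff j : F)‖ ≤ (B : ℝ) ^ (2 * g + 1 - j)

variable (F) in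
/-- The polynomials `f` of height at most `B`. -/
def Polys (g B : ℕ) : Set (𝓞 F)[X] := {f | IsPoly g B f}

/-- The polynomial `f` over an extension `M` of `F`. -/
noncomputable def base (M : Type) [Field M] [Algebra F M] (f : (𝓞 F)[X]) : M[X] :=
  (f.map (algebraMap (𝓞 F) F)).map (algebraMap F M)

/-- `f` is irreducible modulo `v`. -/
def IrreducibleMod (f : (𝓞 F)[X]) (v : HeightOneSpectrum (𝓞 F)) : Prop :=
  Irreducible (f.map (Ideal.Quotient.mk v.asIdeal))

/-- `M / F` is unramified at `v`. -/
def Unramified (v : HeightOneSpectrum (𝓞 F)) (M : Type) [Field M] [NumberField M]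
    [Algebra F M] : Prop :=
  ∀ w : HeightOneSpectrum (𝓞 M), v.asIdeal.map (algebraMap (𝓞 F) (𝓞 M)) ≤ w.asIdeal →
    ¬ v.asIdeal.map (algebraMap (𝓞 F) (𝓞 M)) ≤ w.asIdeal ^ 2

/-- `v` splits completely in `M`: it is unramified and all integers of `M` are congruent to integers of
`F` modulo every prime over `v`. -/
def SplitsCompletely (v : HeightOneSpectrum (𝓞 F)) (M : Type) [Field M] [NumberField M]
    [Algebra F M] : Prop :=
  Unramified v M ∧
  ∀ w : HeightOneSpectrum (𝓞 M), v.asIdeal.map (algebraMap (𝓞 F) (𝓞 M)) ≤ w.asIdeal →
    ∀ y : 𝓞 M, ∃ c : 𝓞 F, y - algebraMap (𝓞 F) (𝓞 M) c ∈ w.asIdeal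

/-- `M` belongs to the class `C(f, Q)`. (For a Galois extension an embedding over `F` in the completion of
`F` at `v` exists if and only if `v` splits completely.) -/
structure InClass (Q : Finset (HeightOneSpectrum (𝓞 F))) (f : (𝓞 F)[X]) (M : Type) [Field M]
    [NumberField M] [Algebra F M] : Prop where
  galois : IsGalois F M
  degree : ∃ n : ℕ, Module.finrank F M = 2 ^ n
  two : ∀ v : HeightOneSpectrum (𝓞 F), (2 : 𝓞 F) ∈ v.asIdeal →
    Nonempty (M →ₐ[F] v.adicCompletion F)
  split : ∀ v ∈ Q, SplitsCompletely v M
  ramified : ∀ v : HeightOneSpectrum (𝓞 F), Unramified v M ∨ IrreducibleMod f v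

/-- The properties of the curves in the theorem. -/
structure Good (Q T : Finset (HeightOneSpectrum (𝓞 F))) (f : (𝓞 F)[X]) : Prop where
  irreducible : Irreducible (f.map (algebraMap (𝓞 F) F))
  two : ∀ v : HeightOneSpectrum (𝓞 F), (2 : 𝓞 F) ∈ v.asIdeal → IrreducibleMod f v
  mod : ∀ v ∈ T, IrreducibleMod f v
  exact : ∀ (M : Type) [Field M] [NumberField M] [Algebra F M], InClass Q f M →
    UniquelyTwoDivisible (base M f) ∧ ShaTwoTrivialReal (base M f) (𝓞 M)

end defs

/-- Primes which split completely, in terms of ideals. -/
theorem split_of {F : Type} [Field F] [NumberField F] {v : HeightOneSpectrum (𝓞 F)} {M : Type}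
    [Field M] [NumberField M] [Algebra F M] (h : Pool.Agent.N874.TF.Spl v M) :
    SplitsCompletely v M := by
  refine ⟨fun w hw hw2 => ?_, fun w hw y => ?_⟩
  · obtain ⟨a, ha, ha2⟩ : ∃ a ∈ v.asIdeal, a ∉ v.asIdeal ^ 2 := by
      by_contra hc
      push Not at hc
      have h1 : v.asIdeal ≤ v.asIdeal ^ 2 := hc
      have h2 : v.asIdeal ^ 2 < v.asIdeal :=
        Ideal.pow_lt_self v.asIdeal v.ne_bot v.isPrime.ne_top 2 le_rfl
      exact absurd h1 (not_le_of_gt h2)
    have h1 := Pool.Agent.N874.TF.val_exp ha ha2
    have h2 := h.1 w (Ideal.map_le_iff_le_comap.1 hw) (a : F)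
    rw [h1] at h2
    have h3 : algebraMap (𝓞 F) (𝓞 M) a ∈ w.asIdeal ^ 2 := hw2 (Ideal.mem_map_of_mem _ ha)
    have h4 := (w.intValuation_le_pow_iff_mem (algebraMap (𝓞 F) (𝓞 M) a) 2).2 h3
    have h5 : w.valuation M (algebraMap F M (a : F)) =
        w.intValuation (algebraMap (𝓞 F) (𝓞 M) a) := by
      rw [← HeightOneSpectrum.valuation_of_algebraMap (K := M)]
      rfl
    rw [← h5, h2] at h4
    rw [WithZero.exp_le_exp] at h4
    norm_num at h4
  · obtain ⟨c, hc⟩ := h.2 w (Ideal.map_le_iff_le_comap.1 hw) (Ideal.Quotient.mk w.asIdeal y)
    exact ⟨c, Ideal.Quotient.eq.1 hc.symm⟩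

/-- **Hyperelliptic curves of every genus over every number field, over Galois 2-extensions of any
signature.** For every number field `F`, every `g ≥ 1`, every finite set `T` of primes and every finite
extension `N / F` there are a finite set `Q` of primes, disjoint from `T`, prime to 2 and split completely in
`N`, and `c > 0` such that for all large `B` at least `c` times the number of all the `f` of height at most `B`
are good: in particular for ALL the extensions `M / F` in the class `C(f, Q)` multiplication by two is
bijective on `J(M)` and the 2-primary part of the Tate-Shafarevich group of `J` over `M` is zero. -/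
theorem result (F : Type) [Field F] [NumberField F] (g : ℕ) (hg : 1 ≤ g)
    (T : Finset (HeightOneSpectrum (𝓞 F))) (N : Type) [Field N] [NumberField N] [Algebra F N] :
    (∀ B : ℕ, (Polys F g B).Finite) ∧
    ∃ Q : Finset (HeightOneSpectrum (𝓞 F)), Disjoint Q T ∧ (∀ v ∈ Q, (2 : 𝓞 F) ∉ v.asIdeal) ∧
      (∀ v ∈ Q, SplitsCompletely v N) ∧
      ∃ c : ℝ, 0 < c ∧ ∀ᶠ B : ℕ in atTop, 0 < (Polys F g B).ncard ∧
        c * ((Polys F g B).ncard : ℝ) ≤ ({f ∈ Polys F g B | Good Q T f}.ncard : ℝ) := by
  have heq : ∀ B, Polys F g B = {f : (𝓞 F)[X] | Pool.Agent.N783.PF.Ht g B f} := by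
    intro B
    ext f
    exact ⟨fun h => ⟨h.monic, h.degree, h.trace, fun j hj σ => h.height j hj σ⟩,
      fun h => ⟨h.mon, h.deg, h.tr, fun j hj σ => h.ht j hj σ⟩⟩
  obtain ⟨Q, hQT, hQ2, hQN, c, hc, B₀, hB₀⟩ := Pool.Agent.Helper82.TU.mainU F hg T N
  have hfin : ∀ B : ℕ, (Polys F g B).Finite := by
    intro B
    have h1 := (hB₀ (max B B₀) (le_max_right _ _)).1
    rw [← heq] at h1
    refine h1.subset fun f hf => ⟨hf.monic, hf.degree, hf.trace, fun j hj σ => ?_⟩
    refine (hf.height j hj σ).trans ?_
    exact pow_le_pow_left₀ (Nat.cast_nonneg _) (by exact_mod_cast le_max_left B B₀) _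
  refine ⟨hfin, Q, hQT, hQ2, fun v hv => split_of (hQN v hv), c, hc, ?_⟩
  filter_upwards [eventually_ge_atTop B₀] with B hB
  obtain ⟨hHt, hle⟩ := hB₀ B hB
  have hspl : ∀ (M : Type) [Field M] [NumberField M] [Algebra F M] (v : HeightOneSpectrum (𝓞 F)),
      SplitsCompletely v M → Pool.Agent.N874.TF.Spl v M := by
    intro M _ _ _ v hv
    refine ⟨Pool.Agent.N874.TF.unr_of hv.1, fun w hw y => ?_⟩
    obtain ⟨y, rfl⟩ := Ideal.Quotient.mk_surjective y
    obtain ⟨c, hc⟩ := hv.2 w (Ideal.map_le_iff_le_comap.2 hw) y
    exact ⟨c, (Ideal.Quotient.eq.2 hc).symm⟩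
  have hsub : {f : (𝓞 F)[X] | Pool.Agent.N783.PF.Ht g B f ∧
        Irreducible (Pool.Agent.N783.PF.fF f) ∧
        (∀ v : HeightOneSpectrum (𝓞 F), (2 : 𝓞 F) ∈ v.asIdeal →
          Irreducible (Pool.Agent.N783.PF.rd v.asIdeal f)) ∧
        (∀ v ∈ T, Irreducible (Pool.Agent.N783.PF.rd v.asIdeal f)) ∧
        Pool.Agent.Helper82.TU.MonoF f ∧
        Pool.Agent.N874.TF.Tws g {𝔭 | ∃ v ∈ Q, 𝔭 = v.asIdeal} f ∧
        Pool.Agent.Helper82.TU.Unr2 {𝔭 | ∃ v ∈ Q, 𝔭 = v.asIdeal} f f ∧
        Pool.Agent.N783.PF.Min g f} ⊆ {f ∈ Polys F g B | Good Q T f} := by
    rintro f ⟨h1, h2, h3, h4, -, -, h5, -⟩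
    refine ⟨⟨h1.mon, h1.deg, h1.tr, fun j hj σ => h1.ht j hj σ⟩, h2, h3, h4, ?_⟩
    intro M _ _ _ hM
    haveI := hM.galois
    obtain ⟨n, hn⟩ := hM.degree
    have hsel := h5 M (fun v hv => by
        obtain ⟨σ⟩ := hM.two v hv
        exact ⟨σ, fun y => σ.commutes y⟩) n hn (by
        rintro v ⟨v', hv', h⟩
        rw [HeightOneSpectrum.ext h]
        exact hspl M v' (hM.split v' hv')) (by
        intro v hv
        rcases hM.ramified v with h | h
        · exact absurd (Pool.Agent.N874.TF.unr_of h) hv
        · exact h)
    exact Pool.Agent.N874.TF.genuineF hn h1.mon (by rw [h1.deg]; exact odd_two_mul_add_one g) h2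
      hsel
  have hfin2 : ({f ∈ Polys F g B | Good Q T f}).Finite := (hfin B).subset fun f hf => hf.1
  have h1 := Set.ncard_le_ncard hsub hfin2
  refine ⟨?_, ?_⟩
  · rw [Set.ncard_pos (hfin B)]
    refine ⟨X ^ (2 * g + 1), monic_X_pow _, natDegree_X_pow _, ?_, fun j hj σ => ?_⟩
    · rw [coeff_X_pow, if_neg (by omega)]
    · rw [coeff_X_pow, if_neg (by omega)]
      have e0 : ((0 : 𝓞 F) : F) = 0 := rfl
      rw [e0, map_zero, norm_zero]
      positivity
  · rw [heq]
    refine hle.trans ?_
    rw [heq] at h1
    exact_mod_cast h1

end Pool.Agent.Results.MP_f80667_ag.TwoExtensionsEveryField
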